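import Mathlib
import Pool.Agent.Helper448.PFinal

set_option autoImplicit false

namespace Pool.Agent.Results.MP_ec8146_lc.NotTransducible

open FirstOrder Pool.Agent.Helper448.TDefs Pool.Agent.Helper448.PDefs

/-- The atomic formula for adjacency. -/
def adjF (c : ℕ) : (LG c).Formula (Fin 2) :=
  Language.Relations.formula₂ (L := LG c) (ColRel.adj : ColRel c 2) (.var 0) (.var 1)

/-- The atomic formula for a colour of the first vertex. -/
def colF (c : ℕ) (i : Fin c) : (LG c).Formula (Fin 2) :=
  Language.Relations.formula₁ (L := LG c) (ColRel.col i : ColRel c 1) (.var 0)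

/-- Sanity check: the adjacency symbol means adjacency. -/
theorem holds_adj {V : Type} (G : SimpleGraph V) {c : ℕ} (C : Fin c → Set V) (u v : V) :
    Holds G C (adjF c) u v ↔ G.Adj u v := by
  unfold Holds adjF
  letI := colStr G C
  rw [Language.Formula.realize_rel₂]
  exact Iff.rfl

/-- Sanity check: the colour symbols mean the colours. -/
theorem holds_col {V : Type} (G : SimpleGraph V) {c : ℕ} (C : Fin c → Set V) (i : Fin c)
    (u v : V) : Holds G C (colF c i) u v ↔ u ∈ C i := by
  unfold Holds colF
  letI := colStr G C
  rw [Language.Formula.realize_rel₁]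
  exact Iff.rfl

/-- Sanity check: every class of finite graphs is transducible from itself. -/
theorem transducible_refl (𝒞 : GraphClass) : Transducible 𝒞 𝒞 := by
  refine ⟨0, adjF 0, fun W _ H hH => ⟨W, inferInstance, H, hH, fun i => i.elim0, ⟨?_⟩⟩⟩
  refine ⟨Function.Embedding.refl W, ?_⟩
  intro u v
  show (u ≠ v ∧ (Holds H _ (adjF 0) u v ∨ Holds H _ (adjF 0) v u)) ↔ H.Adj u v
  rw [holds_adj, holds_adj]
  constructor
  · rintro ⟨_, h | h⟩
    · exact h
    · exact h.symm
  · intro h
    exact ⟨h.ne, Or.inl h⟩

/-- The explicit form: for every number of colours and every formula there is a finite toroidal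
graph of maximum degree at most 3 that is not an induced subgraph of `ψ(G⁺)` for any coloured
finite planar graph `G⁺`. -/
theorem explicit (c : ℕ) (ψ : (LG c).Formula (Fin 2)) :
    ∃ (W : Type) (_ : Finite W) (H : SimpleGraph W), Toroidal H ∧
      (∀ v, (H.neighborSet v).encard ≤ 3) ∧
      ∀ (V : Type) [Finite V] (G : SimpleGraph V), Planar G → ∀ C : Fin c → Set V,
        ¬ Nonempty (H ↪g interp G C ψ) :=
  Pool.Agent.Helper448.PFinal.explicit c ψ

/-- The class of all toroidal graphs is not first-order transducible from the class of all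
planar graphs. -/
theorem result : ¬ Transducible ToroidalGraphs PlanarGraphs :=
  Pool.Agent.Helper448.PFinal.main

end Pool.Agent.Results.MP_ec8146_lc.NotTransducible
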